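import Pool.Agent.McT.W.MainW

/-!
# Almost central nilpotent elements of a tensor product have large tensor rank

Let `A`, `B` be finite factors with separable predual (C*-algebras with a faithful tracial state,
2-norm complete unit ball, trivial centre, 2-norm separable), neither of them McDuff (their central
sequences commute), and let `D` contain commuting copies of `A` and `B` with the product trace
(`D = A ⊗ B`). There are finite sets `F_A ⊂ A`, `F_B ⊂ B` and a constant `C` such that for all
`k ≥ 1` and all `v ∈ D` with `v² = 0`, if all but `1 / 64` of the mass of `v` lies in a part with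
`k` terms of its Schmidt decomposition, then
`‖v‖₂² ≤ C k² (1 + log k) ∑_{u ∈ F_A ∪ F_B} (‖[v, u]‖₂² + ‖[v, u*]‖₂²)`.

For a McDuff factor `D` there are elements `v ≠ 0`, `v² = 0`, for which the sum is as small as one
likes compared with `‖v‖₂²`; the question is whether the factor `k² (1 + log k)` can be dropped.
-/

set_option autoImplicit false

namespace Pool.Agent.Results.MP_e74d26_an.TensorRank

open Pool.McT

theorem result {A B D : Type*} [CStarAlgebra A] [CStarAlgebra B] [CStarAlgebra D]
    (τA : A →ₗ[ℂ] ℂ) (τB : B →ₗ[ℂ] ℂ) (τD : D →ₗ[ℂ] ℂ) (iA : A →⋆ₐ[ℂ] D) (iB : B →⋆ₐ[ℂ] D)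
    (T : Tens τA τB τD iA iB) (hA : Fac τA) (hB : Fac τB) (sA : Sep τA) (sB : Sep τB)
    (mA : ¬ McDuff τA) (mB : ¬ McDuff τB) :
    ∃ (FA : Finset A) (FB : Finset B) (C : ℝ), ∀ k : ℕ, 1 ≤ k → ∀ (a : Fin k → A)
      (b : Fin k → B) (v v' : D), Sch τD iA iB a b v v' → v * v = 0 →
      64 * N τD (v - v') ≤ N τD v →
      N τD v ≤ C * k ^ 2 * (1 + Real.log k) *
        (∑ u ∈ FA, (N τD (cm v (iA u)) + N τD (cm v (star (iA u))))
          + ∑ u ∈ FB, (N τD (cm v (iB u)) + N τD (cm v (star (iB u))))) :=
  main_factors T hA hB sA sB mA mB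

end Pool.Agent.Results.MP_e74d26_an.TensorRank
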